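import Mathlib
import Pool.Agent.Q52.Cond.Defs
import Pool.Agent.Q52.Fib.Defs
import Pool.Agent.Q52.Fib.Cnd

set_option autoImplicit false

/-!
# A squarefree monomial ideal of fiber type whose conductor is not squarefree

The ideal `I = (x₁x₂, x₃x₄x₅, x₁x₃x₄, x₂x₅, x₃x₅x₆, x₁x₄x₆)` of `K[x₁, …, x₆]` is of fiber type,
`x₆ ^ 2` lies in `C(I)` and `x₆` does not.
-/

namespace Pool.Agent.Results.MP_75e24b_ag.ConductorNotSquarefree

open MvPolynomial Q52.Cond Q52.Fib

/-- Over every field `K` there is an ideal of `K[x₁, …, x₆]` generated by six squarefree monomials,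
none of which divides another, which is of fiber type and whose conductor is not generated by
squarefree monomials; the square of the last variable lies in the conductor, the last variable
does not. -/
theorem result (K : Type*) [Field K] :
    ∃ s : Fin 6 → Finset (Fin 6), (∀ i j, s i ⊆ s j → i = j) ∧
      IsFiberType (fun j => ∏ i ∈ s j, (X i : MvPolynomial (Fin 6) K)) ∧
      ¬ IsSquarefreeMonomialIdeal (conductor fun j => ∏ i ∈ s j, (X i : MvPolynomial (Fin 6) K)) ∧
      X 5 ^ 2 ∈ conductor (fun j => ∏ i ∈ s j, (X i : MvPolynomial (Fin 6) K)) ∧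
      X 5 ∉ conductor (fun j => ∏ i ∈ s j, (X i : MvPolynomial (Fin 6) K)) := by
  have h : (fun j => ∏ i ∈ (![{0, 1}, {2, 3, 4}, {0, 2, 3}, {1, 4}, {2, 4, 5}, {0, 3, 5}] :
      Fin 6 → Finset (Fin 6)) j, (X i : MvPolynomial (Fin 6) K)) = gen K := by
    funext j
    fin_cases j <;> simp [gen, mul_assoc]
  refine ⟨![{0, 1}, {2, 3, 4}, {0, 2, 3}, {1, 4}, {2, 4, 5}, {0, 3, 5}], by decide, ?_, ?_, ?_, ?_⟩
  all_goals rw [h]
  · exact isFiberType
  · exact not_squarefree
  · exact sq_mem
  · exact notMem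

end Pool.Agent.Results.MP_75e24b_ag.ConductorNotSquarefree
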